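import Pool.Agent.Helper76.TH7.StC7

/-!
# Project TH (level `2 * 7^n`), module TYPH7: maps of the plane and their types

All maps are written as pairs of fractional linear maps in one coordinate; the relations are identities of matrices up to scalars.
Models: Pool/Agent/Helper42/TH/M_TYPH.lean and Pool/Agent/Helper42/S7/M_Typ.lean.
-/

set_option autoImplicit false

namespace Pool.Agent.Helper55.TH7

open Pool.Agent.Helper76.TH7 Pool.Agent.Helper76.S7 Pool.Agent.Helper93.TLH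

private theorem unit7 {m : ℕ} (a : ℤ) (ha : ¬ (7 : ℤ) ∣ a) (z : ZMod (7 ^ m)) :
    IsUnit ((a : ZMod (7 ^ m)) + 7 * z) := by
  obtain ⟨k, rfl⟩ := ZMod.intCast_surjective z
  have h7 : Prime (7 : ℤ) := by norm_num
  have h1 : IsCoprime (7 : ℤ) (a + 7 * k) := by
    refine (Irreducible.coprime_iff_not_dvd h7.irreducible).mpr fun h => ha ?_
    exact (dvd_add_left (dvd_mul_right 7 k)).mp h
  obtain ⟨u, v, huv⟩ := h1.pow_left (m := m)
  refine IsUnit.of_mul_eq_one ((v : ZMod (7 ^ m))) ?_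
  have h2 := congrArg (Int.cast : ℤ → ZMod (7 ^ m)) huv
  push_cast at h2
  have h3 : (7 : ZMod (7 ^ m)) ^ m = 0 := by
    have := ZMod.natCast_self (7 ^ m)
    push_cast at this
    exact this
  rw [h3] at h2
  linear_combination h2

private theorem unitA (μ : ℕ) {m : ℕ} (a c : ℤ) (ha : ¬ (7 : ℤ) ∣ a) (x : ZMod (7 ^ m)) :
    IsUnit ((a : ZMod (7 ^ m)) + 7 ^ (μ + 1) * c * x) := by
  have h := unit7 (m := m) a ha (7 ^ μ * c * x)
  have e : (a : ZMod (7 ^ m)) + 7 * (7 ^ μ * c * x) = (a : ZMod (7 ^ m)) + 7 ^ (μ + 1) * c * x := by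
    ring
  rwa [e] at h

private theorem frac_eq {n : ℕ} {x y s t : ZMod n} (hs : IsUnit s) (ht : IsUnit t)
    (h : x * t = y * s) : x * s⁻¹ = y * t⁻¹ := by
  have h1 := ZMod.mul_inv_of_unit s hs
  have h2 := ZMod.mul_inv_of_unit t ht
  linear_combination (x * s⁻¹) * (-h2) + (y * t⁻¹) * h1 + s⁻¹ * t⁻¹ * h

/-- The fraction in the definition of `trp`. -/
private noncomputable def mob (μ : ℕ) {m : ℕ} (a b c d : ℤ) (t : ZMod (7 ^ m)) : ZMod (7 ^ m) :=
  ((b : ZMod (7 ^ m)) + d * t) * ((a : ZMod (7 ^ m)) + 7 ^ (μ + 1) * c * t)⁻¹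

private theorem trp_eq (μ : ℕ) {m : ℕ} (a b c d : ℤ) (p : Pt m) :
    trp μ a b c d p = (mob μ a b c d p.1, mob μ d c b a p.2) := rfl

private theorem mob_mob (μ : ℕ) {m : ℕ} (a b c d a' b' c' d' : ℤ) (ha : ¬ (7 : ℤ) ∣ a)
    (ha' : ¬ (7 : ℤ) ∣ a') (hA : ¬ (7 : ℤ) ∣ a * a' + 7 ^ (μ + 1) * b * c') (t : ZMod (7 ^ m)) :
    mob μ a' b' c' d' (mob μ a b c d t) =
      mob μ (a * a' + 7 ^ (μ + 1) * b * c') (a * b' + b * d') (c * a' + d * c')
        (7 ^ (μ + 1) * c * b' + d * d') t := by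
  have h1 := ZMod.mul_inv_of_unit _ (unitA μ a c ha t)
  refine frac_eq (unitA μ a' c' ha' _) (unitA μ _ _ hA t) ?_
  unfold mob
  push_cast
  linear_combination (d' * ((b : ZMod (7 ^ m)) + d * t) * a' -
    b' * (7 ^ (μ + 1) * c' * ((b : ZMod (7 ^ m)) + d * t))) * h1

private theorem mob_neg (μ : ℕ) {m : ℕ} (a b c d : ℤ) (ha : ¬ (7 : ℤ) ∣ a) (t : ZMod (7 ^ m)) :
    mob μ (-a) (-b) (-c) (-d) t = mob μ a b c d t := by
  have ha' : ¬ (7 : ℤ) ∣ -a := fun h => ha ((dvd_neg).mp h)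
  refine frac_eq (unitA μ (-a) (-c) ha' t) (unitA μ a c ha t) ?_
  push_cast
  ring

private theorem mob_id (μ : ℕ) {m : ℕ} (t : ZMod (7 ^ m)) : mob μ 1 0 0 1 t = t := by
  unfold mob
  simp

private theorem mob_arg_neg (μ : ℕ) {m : ℕ} (a b c d : ℤ) (t : ZMod (7 ^ m)) :
    mob μ a b c d (-t) = mob μ a b (-c) (-d) t := by
  unfold mob
  push_cast
  ring_nf

private theorem neg_mob (μ : ℕ) {m : ℕ} (a b c d : ℤ) (t : ZMod (7 ^ m)) :
    -mob μ a b c d t = mob μ a (-b) c (-d) t := by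
  unfold mob
  push_cast
  ring_nf

private theorem dv_mob (μ : ℕ) {m : ℕ} (a b c d s : ℤ) (ha : ¬ (7 : ℤ) ∣ a)
    (hs : (7 : ℤ) ∣ a * d - 7 ^ (μ + 1) * b * c - s * a ^ 2) :
    Dv s (mob μ a b c d : ZMod (7 ^ m) → ZMod (7 ^ m)) := by
  intro i x x' hx
  obtain ⟨k, hk⟩ := hx
  obtain ⟨q, hq⟩ := hs
  have hq' := congrArg (Int.cast : ℤ → ZMod (7 ^ m)) hq
  push_cast at hq'
  have h := ZMod.mul_inv_of_unit _ (unitA μ a c ha x)
  have h' := ZMod.mul_inv_of_unit _ (unitA μ a c ha x')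
  unfold mob
  set v := ((a : ZMod (7 ^ m)) + 7 ^ (μ + 1) * c * x)⁻¹ with hv
  set v' := ((a : ZMod (7 ^ m)) + 7 ^ (μ + 1) * c * x')⁻¹ with hv'
  refine ⟨k * v * v' * (q - s * (7 ^ μ * c * x * a + 7 ^ μ * c * x' * a +
    7 ^ μ * 7 ^ (μ + 1) * c ^ 2 * x * x')), ?_⟩
  linear_combination (((b : ZMod (7 ^ m)) + d * x') * v' + s * (x - x')) * h +
    (-((b : ZMod (7 ^ m)) + d * x) * v +
      s * (x - x') * (((a : ZMod (7 ^ m)) + 7 ^ (μ + 1) * c * x) * v)) * h' +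
    v * v' * ((a * d - 7 ^ (μ + 1) * b * c) - s * (((a : ZMod (7 ^ m)) + 7 ^ (μ + 1) * c * x) *
      ((a : ZMod (7 ^ m)) + 7 ^ (μ + 1) * c * x'))) * hk + 7 ^ i * k * v * v' * hq'

private theorem dv_neg {m : ℕ} : Dv (-1) (fun x : ZMod (7 ^ m) => -x) := by
  intro i x x' _
  refine ⟨0, ?_⟩
  push_cast
  ring

private theorem dv_id {m : ℕ} : Dv 1 (fun x : ZMod (7 ^ m) => x) := by
  intro i x x' _
  refine ⟨0, ?_⟩
  push_cast
  ring

private theorem ty0 {m : ℕ} (r : Pt m → Pt m) (μ : ℕ) (s s' : ℤ) (a b c d a' b' c' d' : ℤ)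
    (ha : ¬ (7 : ℤ) ∣ a) (ha' : ¬ (7 : ℤ) ∣ a') (h1 : ¬ (7 : ℤ) ∣ s) (h2 : ¬ (7 : ℤ) ∣ s - 1)
    (h3 : ¬ (7 : ℤ) ∣ s') (h4 : ¬ (7 : ℤ) ∣ s' - 1)
    (hs : (7 : ℤ) ∣ a * d - 7 ^ (μ + 1) * b * c - s * a ^ 2)
    (hs' : (7 : ℤ) ∣ a' * d' - 7 ^ (μ + 1) * b' * c' - s' * a' ^ 2)
    (h : ∀ p : Pt m, r p = (mob μ a b c d p.1, mob μ a' b' c' d' p.2)) : Ty 0 r :=
  Or.inl ⟨rfl, s, s', _, _, h1, h2, h3, h4, dv_mob μ a b c d s ha hs,
    dv_mob μ a' b' c' d' s' ha' hs', h⟩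

private theorem ty1 {m : ℕ} (r : Pt m → Pt m) (μ : ℕ) (s s' : ℤ) (a b c d a' b' c' d' : ℤ)
    (ha : ¬ (7 : ℤ) ∣ a) (ha' : ¬ (7 : ℤ) ∣ a') (h1 : ¬ (7 : ℤ) ∣ s) (h3 : ¬ (7 : ℤ) ∣ s')
    (hs : (7 : ℤ) ∣ a * d - 7 ^ (μ + 1) * b * c - s * a ^ 2)
    (hs' : (7 : ℤ) ∣ a' * d' - 7 ^ (μ + 1) * b' * c' - s' * a' ^ 2)
    (h : ∀ p : Pt m, r p = (mob μ a b c d p.2, mob μ a' b' c' d' p.1)) : Ty 1 r :=
  Or.inr ⟨rfl, s, s', _, _, h1, h3, dv_mob μ a b c d s ha hs, dv_mob μ a' b' c' d' s' ha' hs', h⟩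

private theorem dR_eq (μ : ℕ) {m : ℕ} (p : Pt m) :
    dR μ p = (mob μ 1 (-1) 0 (-1) p.1, mob μ 1 0 1 (-1) p.2) := by
  show (mob μ 1 (-1) 0 1 (-p.1), mob μ 1 0 (-1) 1 (-p.2)) = _
  rw [mob_arg_neg, mob_arg_neg]
  norm_num

private theorem dRdR (μ : ℕ) {m : ℕ} (p : Pt m) : dR μ (dR μ p) = p := by
  rw [dR_eq, dR_eq]
  refine Prod.ext ?_ ?_
  · show mob μ 1 (-1) 0 (-1) (mob μ 1 (-1) 0 (-1) p.1) = p.1
    rw [mob_mob _ _ _ _ _ _ _ _ _ (by norm_num) (by norm_num) (by norm_num)]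
    norm_num [mob_id]
  · show mob μ 1 0 1 (-1) (mob μ 1 0 1 (-1) p.2) = p.2
    rw [mob_mob _ _ _ _ _ _ _ _ _ (by norm_num) (by norm_num) (by norm_num)]
    norm_num [mob_id]

/-- Composition of two fractional linear maps, up to the scalar `k`. -/
private theorem mm (μ : ℕ) (k : ℤ) {m : ℕ} (a b c d a' b' c' d' A B C D : ℤ) (ha : ¬ (7 : ℤ) ∣ a)
    (ha' : ¬ (7 : ℤ) ∣ a') (hA : ¬ (7 : ℤ) ∣ A) (hk : ¬ (7 : ℤ) ∣ k)
    (h1 : a * a' + 7 ^ (μ + 1) * b * c' = k * A) (h2 : a * b' + b * d' = k * B)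
    (h3 : c * a' + d * c' = k * C) (h4 : 7 ^ (μ + 1) * c * b' + d * d' = k * D) (t : ZMod (7 ^ m)) :
    mob μ a' b' c' d' (mob μ a b c d t) = mob μ A B C D t := by
  have h5 : Prime (7 : ℤ) := by norm_num
  have hkA : ¬ (7 : ℤ) ∣ k * A := fun h => (h5.dvd_or_dvd h).elim hk hA
  rw [mob_mob μ a b c d a' b' c' d' ha ha' (by rw [h1]; exact hkA) t, h1, h2, h3, h4]
  refine frac_eq (unitA μ _ _ hkA t) (unitA μ A C hA t) ?_
  push_cast
  ring

private theorem swH_eq0 {m : ℕ} (p : Pt m) :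
    swH p = (mob 0 2 0 0 1 p.2, mob 0 1 0 0 2 p.1) := by
  unfold swH mob
  simp

private theorem swH_eq1 {m : ℕ} (p : Pt m) :
    swH p = (mob 1 2 0 0 1 p.2, mob 1 1 0 0 2 p.1) := by
  unfold swH mob
  simp

private theorem ng_eq (μ : ℕ) {m : ℕ} (p : Pt m) :
    ng p = (mob μ 1 0 0 (-1) p.1, mob μ 1 0 0 (-1) p.2) := by
  unfold ng mob
  simp

private theorem ngsw_eq {m : ℕ} (p : Pt m) :
    ng (swH p) = (mob 1 2 0 0 (-1) p.2, mob 1 1 0 0 (-2) p.1) := by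
  unfold ng swH mob
  simp

private theorem cOH_eq {m : ℕ} (p : Pt m) :
    cOH p = (mob 0 2 (-1) 1 (-3) p.2, mob 0 3 (-1) 1 (-2) p.1) := by
  unfold cOH
  rw [swH_eq0, trp_eq]
  exact Prod.ext (mm _ 2 _ _ _ _ _ _ _ _ _ _ _ _ (by norm_num) (by norm_num) (by norm_num) (by norm_num) (by norm_num) (by norm_num) (by norm_num) (by norm_num) _)
    (mm _ (-2) _ _ _ _ _ _ _ _ _ _ _ _ (by norm_num) (by norm_num) (by norm_num) (by norm_num) (by norm_num) (by norm_num) (by norm_num) (by norm_num) _)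

private theorem sOH_eq {m : ℕ} (p : Pt m) :
    sOH p = (mob 0 4 (-1) 2 (-4) p.1, mob 0 4 (-2) 1 (-4) p.2) := by
  unfold sOH
  rw [ng_eq 0, trp_eq]
  exact Prod.ext (mm _ (-1) _ _ _ _ _ _ _ _ _ _ _ _ (by norm_num) (by norm_num) (by norm_num) (by norm_num) (by norm_num) (by norm_num) (by norm_num) (by norm_num) _)
    (mm _ (-1) _ _ _ _ _ _ _ _ _ _ _ _ (by norm_num) (by norm_num) (by norm_num) (by norm_num) (by norm_num) (by norm_num) (by norm_num) (by norm_num) _)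

private theorem sEH_eq {m : ℕ} (p : Pt m) :
    sEH p = (mob 1 10 (-1) 2 (-10) p.1, mob 1 10 (-2) 1 (-10) p.2) := by
  unfold sEH
  rw [ng_eq 1, trp_eq]
  exact Prod.ext (mm _ (-1) _ _ _ _ _ _ _ _ _ _ _ _ (by norm_num) (by norm_num) (by norm_num) (by norm_num) (by norm_num) (by norm_num) (by norm_num) (by norm_num) _)
    (mm _ (-1) _ _ _ _ _ _ _ _ _ _ _ _ (by norm_num) (by norm_num) (by norm_num) (by norm_num) (by norm_num) (by norm_num) (by norm_num) (by norm_num) _)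

private theorem cHH_eq {m : ℕ} (p : Pt m) :
    cHH p = (mob 1 8 (-1) 1 (-6) p.2, mob 1 6 (-1) 1 (-8) p.1) := by
  unfold cHH
  rw [swH_eq1, trp_eq]
  exact Prod.ext (mm _ 2 _ _ _ _ _ _ _ _ _ _ _ _ (by norm_num) (by norm_num) (by norm_num) (by norm_num) (by norm_num) (by norm_num) (by norm_num) (by norm_num) _)
    (mm _ (-2) _ _ _ _ _ _ _ _ _ _ _ _ (by norm_num) (by norm_num) (by norm_num) (by norm_num) (by norm_num) (by norm_num) (by norm_num) (by norm_num) _)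

private theorem cMH_eq {m : ℕ} (p : Pt m) :
    cMH p = (mob 1 6 (-1) 1 (-8) p.2, mob 1 8 (-1) 1 (-6) p.1) := by
  unfold cMH
  rw [swH_eq1, trp_eq]
  exact Prod.ext (mm _ 2 _ _ _ _ _ _ _ _ _ _ _ _ (by norm_num) (by norm_num) (by norm_num) (by norm_num) (by norm_num) (by norm_num) (by norm_num) (by norm_num) _)
    (mm _ (-2) _ _ _ _ _ _ _ _ _ _ _ _ (by norm_num) (by norm_num) (by norm_num) (by norm_num) (by norm_num) (by norm_num) (by norm_num) (by norm_num) _)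

private theorem cNH_eq {m : ℕ} (p : Pt m) :
    cNH p = (mob 1 4 (-1) 1 (-12) p.2, mob 1 12 (-1) 1 (-4) p.1) := by
  unfold cNH
  rw [swH_eq1, trp_eq]
  exact Prod.ext (mm _ 2 _ _ _ _ _ _ _ _ _ _ _ _ (by norm_num) (by norm_num) (by norm_num) (by norm_num) (by norm_num) (by norm_num) (by norm_num) (by norm_num) _)
    (mm _ (-2) _ _ _ _ _ _ _ _ _ _ _ _ (by norm_num) (by norm_num) (by norm_num) (by norm_num) (by norm_num) (by norm_num) (by norm_num) (by norm_num) _)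

private theorem dlH_eq {m : ℕ} (p : Pt m) :
    dlH p = (mob 1 6 (-2) 2 (-33) p.2, mob 1 33 (-2) 2 (-6) p.1) := by
  unfold dlH
  rw [ngsw_eq, trp_eq]
  exact Prod.ext (mm _ 1 _ _ _ _ _ _ _ _ _ _ _ _ (by norm_num) (by norm_num) (by norm_num) (by norm_num) (by norm_num) (by norm_num) (by norm_num) (by norm_num) _)
    (mm _ 1 _ _ _ _ _ _ _ _ _ _ _ _ (by norm_num) (by norm_num) (by norm_num) (by norm_num) (by norm_num) (by norm_num) (by norm_num) (by norm_num) _)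

private theorem glH_eq {m : ℕ} (p : Pt m) :
    glH p = (mob 1 10 (-2) 4 (-39) p.2, mob 1 39 (-4) 2 (-10) p.1) := by
  unfold glH
  rw [swH_eq1, trp_eq]
  exact Prod.ext (mm _ 1 _ _ _ _ _ _ _ _ _ _ _ _ (by norm_num) (by norm_num) (by norm_num) (by norm_num) (by norm_num) (by norm_num) (by norm_num) (by norm_num) _)
    (mm _ (-1) _ _ _ _ _ _ _ _ _ _ _ _ (by norm_num) (by norm_num) (by norm_num) (by norm_num) (by norm_num) (by norm_num) (by norm_num) (by norm_num) _)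

private theorem cCH_eq {m : ℕ} (p : Pt m) :
    cCH p = (mob 1 2 (-1) 1 (-24) p.2, mob 1 24 (-1) 1 (-2) p.1) := by
  unfold cCH
  rw [swH_eq1, trp_eq]
  exact Prod.ext (mm _ 2 _ _ _ _ _ _ _ _ _ _ _ _ (by norm_num) (by norm_num) (by norm_num) (by norm_num) (by norm_num) (by norm_num) (by norm_num) (by norm_num) _)
    (mm _ (-2) _ _ _ _ _ _ _ _ _ _ _ _ (by norm_num) (by norm_num) (by norm_num) (by norm_num) (by norm_num) (by norm_num) (by norm_num) (by norm_num) _)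

private theorem swsw {m : ℕ} (p : Pt m) : swH (swH p) = p := by
  rw [swH_eq0, swH_eq0]
  exact Prod.ext ((mm _ 2 _ _ _ _ _ _ _ _ 1 0 0 1 (by norm_num) (by norm_num) (by norm_num) (by norm_num) (by norm_num) (by norm_num) (by norm_num) (by norm_num) _).trans (mob_id _ _))
    ((mm _ 2 _ _ _ _ _ _ _ _ 1 0 0 1 (by norm_num) (by norm_num) (by norm_num) (by norm_num) (by norm_num) (by norm_num) (by norm_num) (by norm_num) _).trans (mob_id _ _))

private theorem cOH2 {m : ℕ} (p : Pt m) : cOH (cOH p) = p := by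
  rw [cOH_eq, cOH_eq]
  exact Prod.ext ((mm _ (-1) _ _ _ _ _ _ _ _ 1 0 0 1 (by norm_num) (by norm_num) (by norm_num) (by norm_num) (by norm_num) (by norm_num) (by norm_num) (by norm_num) _).trans (mob_id _ _))
    ((mm _ (-1) _ _ _ _ _ _ _ _ 1 0 0 1 (by norm_num) (by norm_num) (by norm_num) (by norm_num) (by norm_num) (by norm_num) (by norm_num) (by norm_num) _).trans (mob_id _ _))

private theorem sOH2 {m : ℕ} (p : Pt m) : sOH (sOH p) = p := by
  rw [sOH_eq, sOH_eq]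
  exact Prod.ext ((mm _ 2 _ _ _ _ _ _ _ _ 1 0 0 1 (by norm_num) (by norm_num) (by norm_num) (by norm_num) (by norm_num) (by norm_num) (by norm_num) (by norm_num) _).trans (mob_id _ _))
    ((mm _ 2 _ _ _ _ _ _ _ _ 1 0 0 1 (by norm_num) (by norm_num) (by norm_num) (by norm_num) (by norm_num) (by norm_num) (by norm_num) (by norm_num) _).trans (mob_id _ _))

private theorem sEH2 {m : ℕ} (p : Pt m) : sEH (sEH p) = p := by
  rw [sEH_eq, sEH_eq]
  exact Prod.ext ((mm _ 2 _ _ _ _ _ _ _ _ 1 0 0 1 (by norm_num) (by norm_num) (by norm_num) (by norm_num) (by norm_num) (by norm_num) (by norm_num) (by norm_num) _).trans (mob_id _ _))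
    ((mm _ 2 _ _ _ _ _ _ _ _ 1 0 0 1 (by norm_num) (by norm_num) (by norm_num) (by norm_num) (by norm_num) (by norm_num) (by norm_num) (by norm_num) _).trans (mob_id _ _))

private theorem cHH2 {m : ℕ} (p : Pt m) : cHH (cHH p) = p := by
  rw [cHH_eq, cHH_eq]
  exact Prod.ext ((mm _ (-1) _ _ _ _ _ _ _ _ 1 0 0 1 (by norm_num) (by norm_num) (by norm_num) (by norm_num) (by norm_num) (by norm_num) (by norm_num) (by norm_num) _).trans (mob_id _ _))
    ((mm _ (-1) _ _ _ _ _ _ _ _ 1 0 0 1 (by norm_num) (by norm_num) (by norm_num) (by norm_num) (by norm_num) (by norm_num) (by norm_num) (by norm_num) _).trans (mob_id _ _))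

private theorem cMH2 {m : ℕ} (p : Pt m) : cMH (cMH p) = p := by
  rw [cMH_eq, cMH_eq]
  exact Prod.ext ((mm _ (-1) _ _ _ _ _ _ _ _ 1 0 0 1 (by norm_num) (by norm_num) (by norm_num) (by norm_num) (by norm_num) (by norm_num) (by norm_num) (by norm_num) _).trans (mob_id _ _))
    ((mm _ (-1) _ _ _ _ _ _ _ _ 1 0 0 1 (by norm_num) (by norm_num) (by norm_num) (by norm_num) (by norm_num) (by norm_num) (by norm_num) (by norm_num) _).trans (mob_id _ _))

private theorem cNH2 {m : ℕ} (p : Pt m) : cNH (cNH p) = p := by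
  rw [cNH_eq, cNH_eq]
  exact Prod.ext ((mm _ (-1) _ _ _ _ _ _ _ _ 1 0 0 1 (by norm_num) (by norm_num) (by norm_num) (by norm_num) (by norm_num) (by norm_num) (by norm_num) (by norm_num) _).trans (mob_id _ _))
    ((mm _ (-1) _ _ _ _ _ _ _ _ 1 0 0 1 (by norm_num) (by norm_num) (by norm_num) (by norm_num) (by norm_num) (by norm_num) (by norm_num) (by norm_num) _).trans (mob_id _ _))

private theorem dlH2 {m : ℕ} (p : Pt m) : dlH (dlH p) = p := by
  rw [dlH_eq, dlH_eq]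
  exact Prod.ext ((mm _ 2 _ _ _ _ _ _ _ _ 1 0 0 1 (by norm_num) (by norm_num) (by norm_num) (by norm_num) (by norm_num) (by norm_num) (by norm_num) (by norm_num) _).trans (mob_id _ _))
    ((mm _ 2 _ _ _ _ _ _ _ _ 1 0 0 1 (by norm_num) (by norm_num) (by norm_num) (by norm_num) (by norm_num) (by norm_num) (by norm_num) (by norm_num) _).trans (mob_id _ _))

private theorem cCH2 {m : ℕ} (p : Pt m) : cCH (cCH p) = p := by
  rw [cCH_eq, cCH_eq]
  exact Prod.ext ((mm _ (-1) _ _ _ _ _ _ _ _ 1 0 0 1 (by norm_num) (by norm_num) (by norm_num) (by norm_num) (by norm_num) (by norm_num) (by norm_num) (by norm_num) _).trans (mob_id _ _))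
    ((mm _ (-1) _ _ _ _ _ _ _ _ 1 0 0 1 (by norm_num) (by norm_num) (by norm_num) (by norm_num) (by norm_num) (by norm_num) (by norm_num) (by norm_num) _).trans (mob_id _ _))

private theorem dRcOA {m : ℕ} (p : Pt m) :
    dR 0 (cOH p) = (mob 0 2 (-1) 1 (-4) p.2, mob 0 4 (-1) 1 (-2) p.1) := by
  rw [cOH_eq, dR_eq]
  exact Prod.ext (mm _ 1 _ _ _ _ _ _ _ _ _ _ _ _ (by norm_num) (by norm_num) (by norm_num) (by norm_num) (by norm_num) (by norm_num) (by norm_num) (by norm_num) _)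
    (mm _ (-1) _ _ _ _ _ _ _ _ _ _ _ _ (by norm_num) (by norm_num) (by norm_num) (by norm_num) (by norm_num) (by norm_num) (by norm_num) (by norm_num) _)

private theorem dRcOB {m : ℕ} (p : Pt m) :
    cOH (dR 0 p) = (mob 0 2 (-1) 1 (-4) p.2, mob 0 4 (-1) 1 (-2) p.1) := by
  rw [dR_eq, cOH_eq]
  exact Prod.ext (mm _ 1 _ _ _ _ _ _ _ _ _ _ _ _ (by norm_num) (by norm_num) (by norm_num) (by norm_num) (by norm_num) (by norm_num) (by norm_num) (by norm_num) _)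
    (mm _ (-1) _ _ _ _ _ _ _ _ _ _ _ _ (by norm_num) (by norm_num) (by norm_num) (by norm_num) (by norm_num) (by norm_num) (by norm_num) (by norm_num) _)

private theorem dRcCA {m : ℕ} (p : Pt m) :
    dR 1 (cCH p) = (mob 1 2 (-1) 1 (-25) p.2, mob 1 25 (-1) 1 (-2) p.1) := by
  rw [cCH_eq, dR_eq]
  exact Prod.ext (mm _ 1 _ _ _ _ _ _ _ _ _ _ _ _ (by norm_num) (by norm_num) (by norm_num) (by norm_num) (by norm_num) (by norm_num) (by norm_num) (by norm_num) _)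
    (mm _ (-1) _ _ _ _ _ _ _ _ _ _ _ _ (by norm_num) (by norm_num) (by norm_num) (by norm_num) (by norm_num) (by norm_num) (by norm_num) (by norm_num) _)

private theorem dRcCB {m : ℕ} (p : Pt m) :
    cCH (dR 1 p) = (mob 1 2 (-1) 1 (-25) p.2, mob 1 25 (-1) 1 (-2) p.1) := by
  rw [dR_eq, cCH_eq]
  exact Prod.ext (mm _ 1 _ _ _ _ _ _ _ _ _ _ _ _ (by norm_num) (by norm_num) (by norm_num) (by norm_num) (by norm_num) (by norm_num) (by norm_num) (by norm_num) _)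
    (mm _ (-1) _ _ _ _ _ _ _ _ _ _ _ _ (by norm_num) (by norm_num) (by norm_num) (by norm_num) (by norm_num) (by norm_num) (by norm_num) (by norm_num) _)

private theorem swsOA {m : ℕ} (p : Pt m) :
    swH (sOH p) = (mob 0 4 (-1) 1 (-2) p.2, mob 0 2 (-1) 1 (-4) p.1) := by
  rw [sOH_eq, swH_eq0]
  exact Prod.ext (mm _ 2 _ _ _ _ _ _ _ _ _ _ _ _ (by norm_num) (by norm_num) (by norm_num) (by norm_num) (by norm_num) (by norm_num) (by norm_num) (by norm_num) _)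
    (mm _ 2 _ _ _ _ _ _ _ _ _ _ _ _ (by norm_num) (by norm_num) (by norm_num) (by norm_num) (by norm_num) (by norm_num) (by norm_num) (by norm_num) _)

private theorem swsOB {m : ℕ} (p : Pt m) :
    sOH (swH p) = (mob 0 4 (-1) 1 (-2) p.2, mob 0 2 (-1) 1 (-4) p.1) := by
  rw [swH_eq0, sOH_eq]
  exact Prod.ext (mm _ 2 _ _ _ _ _ _ _ _ _ _ _ _ (by norm_num) (by norm_num) (by norm_num) (by norm_num) (by norm_num) (by norm_num) (by norm_num) (by norm_num) _)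
    (mm _ 2 _ _ _ _ _ _ _ _ _ _ _ _ (by norm_num) (by norm_num) (by norm_num) (by norm_num) (by norm_num) (by norm_num) (by norm_num) (by norm_num) _)

private theorem cOsOA {m : ℕ} (p : Pt m) :
    cOH (sOH p) = (mob 0 6 (-2) 2 (-5) p.2, mob 0 5 (-2) 2 (-6) p.1) := by
  rw [sOH_eq, cOH_eq]
  exact Prod.ext (mm _ (-1) _ _ _ _ _ _ _ _ _ _ _ _ (by norm_num) (by norm_num) (by norm_num) (by norm_num) (by norm_num) (by norm_num) (by norm_num) (by norm_num) _)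
    (mm _ 1 _ _ _ _ _ _ _ _ _ _ _ _ (by norm_num) (by norm_num) (by norm_num) (by norm_num) (by norm_num) (by norm_num) (by norm_num) (by norm_num) _)

private theorem cOsOB {m : ℕ} (p : Pt m) :
    sOH (cOH p) = (mob 0 6 (-2) 2 (-5) p.2, mob 0 5 (-2) 2 (-6) p.1) := by
  rw [cOH_eq, sOH_eq]
  exact Prod.ext (mm _ (-1) _ _ _ _ _ _ _ _ _ _ _ _ (by norm_num) (by norm_num) (by norm_num) (by norm_num) (by norm_num) (by norm_num) (by norm_num) (by norm_num) _)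
    (mm _ 1 _ _ _ _ _ _ _ _ _ _ _ _ (by norm_num) (by norm_num) (by norm_num) (by norm_num) (by norm_num) (by norm_num) (by norm_num) (by norm_num) _)

private theorem swsEA {m : ℕ} (p : Pt m) :
    swH (sEH p) = (mob 1 10 (-1) 1 (-5) p.2, mob 1 5 (-1) 1 (-10) p.1) := by
  rw [sEH_eq, swH_eq1]
  exact Prod.ext (mm _ 2 _ _ _ _ _ _ _ _ _ _ _ _ (by norm_num) (by norm_num) (by norm_num) (by norm_num) (by norm_num) (by norm_num) (by norm_num) (by norm_num) _)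
    (mm _ 2 _ _ _ _ _ _ _ _ _ _ _ _ (by norm_num) (by norm_num) (by norm_num) (by norm_num) (by norm_num) (by norm_num) (by norm_num) (by norm_num) _)

private theorem swsEB {m : ℕ} (p : Pt m) :
    sEH (swH p) = (mob 1 10 (-1) 1 (-5) p.2, mob 1 5 (-1) 1 (-10) p.1) := by
  rw [swH_eq1, sEH_eq]
  exact Prod.ext (mm _ 2 _ _ _ _ _ _ _ _ _ _ _ _ (by norm_num) (by norm_num) (by norm_num) (by norm_num) (by norm_num) (by norm_num) (by norm_num) (by norm_num) _)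
    (mm _ 2 _ _ _ _ _ _ _ _ _ _ _ _ (by norm_num) (by norm_num) (by norm_num) (by norm_num) (by norm_num) (by norm_num) (by norm_num) (by norm_num) _)

private theorem cHsEA {m : ℕ} (p : Pt m) :
    cHH (sEH p) = (mob 1 18 (-2) 2 (-11) p.2, mob 1 11 (-2) 2 (-18) p.1) := by
  rw [sEH_eq, cHH_eq]
  exact Prod.ext (mm _ (-1) _ _ _ _ _ _ _ _ _ _ _ _ (by norm_num) (by norm_num) (by norm_num) (by norm_num) (by norm_num) (by norm_num) (by norm_num) (by norm_num) _)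
    (mm _ 1 _ _ _ _ _ _ _ _ _ _ _ _ (by norm_num) (by norm_num) (by norm_num) (by norm_num) (by norm_num) (by norm_num) (by norm_num) (by norm_num) _)

private theorem cHsEB {m : ℕ} (p : Pt m) :
    sEH (cHH p) = (mob 1 18 (-2) 2 (-11) p.2, mob 1 11 (-2) 2 (-18) p.1) := by
  rw [cHH_eq, sEH_eq]
  exact Prod.ext (mm _ (-1) _ _ _ _ _ _ _ _ _ _ _ _ (by norm_num) (by norm_num) (by norm_num) (by norm_num) (by norm_num) (by norm_num) (by norm_num) (by norm_num) _)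
    (mm _ 1 _ _ _ _ _ _ _ _ _ _ _ _ (by norm_num) (by norm_num) (by norm_num) (by norm_num) (by norm_num) (by norm_num) (by norm_num) (by norm_num) _)

/-- Module TYPH7. -/
theorem hTypH7 : HTyp7 := by
  intro m
  refine ⟨⟨⟨?_, swsw, ?_⟩, ?_, ?_, ?_⟩,
    ⟨⟨dRdR 0, cOH2, fun p => (dRcOA p).trans (dRcOB p).symm⟩, ?_, ?_, ?_⟩,
    ⟨⟨dRdR 1, cCH2, fun p => (dRcCA p).trans (dRcCB p).symm⟩, ?_, ?_, ?_⟩,
    ⟨⟨swsw, sOH2, fun p => (swsOA p).trans (swsOB p).symm⟩,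
      ⟨cOH2, sOH2, fun p => (cOsOA p).trans (cOsOB p).symm⟩, sOH2, ?_, ?_, ?_⟩,
    ⟨⟨swsw, sEH2, fun p => (swsEA p).trans (swsEB p).symm⟩,
      ⟨cHH2, sEH2, fun p => (cHsEA p).trans (cHsEB p).symm⟩, ?_, ?_, ?_, ?_⟩,
    ⟨cMH2, ?_⟩, ⟨cNH2, ?_⟩, ⟨dlH2, ?_⟩, ?_⟩
  · intro p
    simp [ng]
  · intro p
    unfold ng swH
    simp
  · exact ty0 _ 0 6 6 _ _ _ _ _ _ _ _ (by norm_num) (by norm_num) (by norm_num) (by norm_num) (by norm_num) (by norm_num) (by norm_num) (by norm_num) (ng_eq 0)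
  · exact ty1 _ 1 4 2 _ _ _ _ _ _ _ _ (by norm_num) (by norm_num) (by norm_num) (by norm_num) (by norm_num) (by norm_num) swH_eq1
  · exact ty1 _ 1 3 5 _ _ _ _ _ _ _ _ (by norm_num) (by norm_num) (by norm_num) (by norm_num) (by norm_num) (by norm_num) ngsw_eq
  · exact ty0 _ 0 6 6 _ _ _ _ _ _ _ _ (by norm_num) (by norm_num) (by norm_num) (by norm_num) (by norm_num) (by norm_num) (by norm_num) (by norm_num) (dR_eq 0)
  · exact ty1 _ 0 2 4 _ _ _ _ _ _ _ _ (by norm_num) (by norm_num) (by norm_num) (by norm_num) (by norm_num) (by norm_num) cOH_eq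
  · exact ty1 _ 0 5 3 _ _ _ _ _ _ _ _ (by norm_num) (by norm_num) (by norm_num) (by norm_num) (by norm_num) (by norm_num) dRcOA
  · exact ty0 _ 1 6 6 _ _ _ _ _ _ _ _ (by norm_num) (by norm_num) (by norm_num) (by norm_num) (by norm_num) (by norm_num) (by norm_num) (by norm_num) (dR_eq 1)
  · exact ty1 _ 1 2 4 _ _ _ _ _ _ _ _ (by norm_num) (by norm_num) (by norm_num) (by norm_num) (by norm_num) (by norm_num) cCH_eq
  · exact ty1 _ 1 5 3 _ _ _ _ _ _ _ _ (by norm_num) (by norm_num) (by norm_num) (by norm_num) (by norm_num) (by norm_num) dRcCA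
  · exact ty0 _ 0 6 6 _ _ _ _ _ _ _ _ (by norm_num) (by norm_num) (by norm_num) (by norm_num) (by norm_num) (by norm_num) (by norm_num) (by norm_num) sOH_eq
  · exact ty1 _ 0 3 5 _ _ _ _ _ _ _ _ (by norm_num) (by norm_num) (by norm_num) (by norm_num) (by norm_num) (by norm_num) swsOA
  · exact ty1 _ 0 5 3 _ _ _ _ _ _ _ _ (by norm_num) (by norm_num) (by norm_num) (by norm_num) (by norm_num) (by norm_num) cOsOA
  · exact ty0 _ 1 6 6 _ _ _ _ _ _ _ _ (by norm_num) (by norm_num) (by norm_num) (by norm_num) (by norm_num) (by norm_num) (by norm_num) (by norm_num) sEH_eq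
  · exact ty1 _ 1 1 1 _ _ _ _ _ _ _ _ (by norm_num) (by norm_num) (by norm_num) (by norm_num) (by norm_num) (by norm_num) cHH_eq
  · exact ty1 _ 1 3 5 _ _ _ _ _ _ _ _ (by norm_num) (by norm_num) (by norm_num) (by norm_num) (by norm_num) (by norm_num) swsEA
  · exact ty1 _ 1 6 6 _ _ _ _ _ _ _ _ (by norm_num) (by norm_num) (by norm_num) (by norm_num) (by norm_num) (by norm_num) cHsEA
  · exact ty1 _ 1 1 1 _ _ _ _ _ _ _ _ (by norm_num) (by norm_num) (by norm_num) (by norm_num) (by norm_num) (by norm_num) cMH_eq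
  · exact ty1 _ 1 4 2 _ _ _ _ _ _ _ _ (by norm_num) (by norm_num) (by norm_num) (by norm_num) (by norm_num) (by norm_num) cNH_eq
  · exact ty1 _ 1 5 3 _ _ _ _ _ _ _ _ (by norm_num) (by norm_num) (by norm_num) (by norm_num) (by norm_num) (by norm_num) dlH_eq
  · exact ty1 _ 1 1 1 _ _ _ _ _ _ _ _ (by norm_num) (by norm_num) (by norm_num) (by norm_num) (by norm_num) (by norm_num) glH_eq

end Pool.Agent.Helper55.TH7
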